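import Pool.Agent.Y242.LW.Stm

/-!
Project LW (owner helper242), job 1350: the chain argument in the semigroup (`S_G`).
-/

set_option autoImplicit false

open Set Filter Topology Complex Metric

noncomputable section

namespace LW242.G350

open LW242

theorem hp_open : IsOpen Hp := isOpen_lt continuous_const Complex.continuous_im

theorem uni_congr {f g : ℂ → ℂ} (h : Uni f) (e : ∀ z ∈ Hp, g z = f z) : Uni g := by
  refine ⟨h.1.congr e, ?_, ?_⟩
  · intro z hz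
    rw [e z hz]
    exact h.2.1 hz
  · intro z hz w hw hzw
    rw [e z hz, e w hw] at hzw
    exact h.2.2 hz hw hzw

theorem uni_id : Uni (fun z => z) :=
  ⟨differentiableOn_id, fun _ hz => hz, fun _ _ _ _ h => h⟩

theorem jul_congr {f g : ℂ → ℂ} {x ξ C : ℝ} (h : Jul f x ξ C) (e : ∀ z ∈ Hp, g z = f z) :
    Jul g x ξ C := by
  intro z hz
  rw [e z hz]
  exact h z hz

theorem jul_id (x : ℝ) : Jul (fun z => z) x x 1 := by
  intro z hz
  simp

theorem dil_congr {f g : ℂ → ℂ} {x : ℝ} (e : ∀ z ∈ Hp, g z = f z) : dil g x = dil f x := by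
  unfold dil
  congr 1
  ext r
  constructor
  · rintro ⟨z, hz, h⟩
    exact ⟨z, hz, by rw [h, e z hz]⟩
  · rintro ⟨z, hz, h⟩
    exact ⟨z, hz, by rw [h, e z hz]⟩

variable {n : ℕ} {x : ℕ → ℝ}

theorem cls_congr {f g : ℂ → ℂ} (h : Cls n x f) (e : ∀ z ∈ Hp, g z = f z) : Cls n x g := by
  refine ⟨uni_congr h.1 e, ?_, ?_⟩
  · intro z hz
    rw [e z hz]
    exact h.2.1 z hz
  · intro j hj
    obtain ⟨C, hC⟩ := h.2.2 j hj
    exact ⟨C, jul_congr hC e⟩

theorem cls_id : Cls n x (fun z => z) :=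
  ⟨uni_id, fun _ _ => le_refl _, fun j _ => ⟨1, jul_id (x j)⟩⟩

theorem fa {f : ℂ → ℂ} (h : Cls n x f) {j : ℕ} (hj : j ≤ n) : FixAdm f (x j) :=
  ⟨h.1, h.2.1, h.2.2 j hj⟩

theorem cls_comp (hD : S_DIL) {f g : ℂ → ℂ} (hf : Cls n x f) (hg : Cls n x g) :
    Cls n x (fun z => f (g z)) := by
  have key : ∀ j ≤ n, FixAdm (fun z => f (g z)) (x j) := fun j hj =>
    ((hD f (x j) (fa hf hj)).2.2.2.2.2 g (fa hg hj)).1
  exact ⟨(key 0 (Nat.zero_le _)).1, (key 0 (Nat.zero_le _)).2.1, fun j hj => (key j hj).2.2⟩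

theorem dil_comp (hD : S_DIL) {f g : ℂ → ℂ} (hf : Cls n x f) (hg : Cls n x g) {j : ℕ}
    (hj : j ≤ n) : dil (fun z => f (g z)) (x j) = dil f (x j) * dil g (x j) :=
  ((hD f (x j) (fa hf hj)).2.2.2.2.2 g (fa hg hj)).2

theorem one_le (hD : S_DIL) {f : ℂ → ℂ} (hf : Cls n x f) {j : ℕ} (hj : j ≤ n) :
    1 ≤ dil f (x j) := (hD f (x j) (fa hf hj)).1

theorem dil_id (hD : S_DIL) {j : ℕ} (hj : j ≤ n) : dil (fun z => z) (x j) = 1 :=
  le_antisymm ((hD _ (x j) (fa (cls_id (n := n) (x := x)) hj)).2.2.1 1 (jul_id (x j)))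
    (one_le hD (cls_id (n := n) (x := x)) hj)

theorem jul_dil (hD : S_DIL) {f : ℂ → ℂ} (hf : Cls n x f) {j : ℕ} (hj : j ≤ n) :
    Jul f (x j) (x j) (dil f (x j)) := (hD f (x j) (fa hf hj)).2.1

theorem id_of_dil (hD : S_DIL) {f : ℂ → ℂ} (hf : Cls n x f) {j : ℕ} (hj : j ≤ n)
    (h : dil f (x j) = 1) : ∀ z ∈ Hp, f z = z := (hD f (x j) (fa hf hj)).2.2.2.1 h

theorem disp (hD : S_DIL) {f : ℂ → ℂ} (hf : Cls n x f) {j : ℕ} (hj : j ≤ n) :
    ∀ z ∈ Hp, ‖f z - z‖ ≤ (dil f (x j) - 1) * (‖z - (x j : ℂ)‖ ^ 2 / z.im) :=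
  (hD f (x j) (fa hf hj)).2.2.2.2.1

theorem jul_mono {f : ℂ → ℂ} (hf : Uni f) {a b C D : ℝ} (h : Jul f a b C) (hCD : C ≤ D) :
    Jul f a b D := by
  intro z hz
  refine (h z hz).trans ?_
  have h1 : 0 ≤ (f z).im := (hf.2.1 hz).le
  have h2 : 0 ≤ ‖z - (a : ℂ)‖ ^ 2 := by positivity
  have h3 : C * (f z).im ≤ D * (f z).im := mul_le_mul_of_nonneg_right hCD h1
  exact mul_le_mul_of_nonneg_right h3 h2

/-- bounded sequences converge along the hyperfilter -/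
theorem ultra_lim (u : ℕ → ℝ) (a b : ℝ) (h : ∀ k, a ≤ u k ∧ u k ≤ b) :
    ∃ D : ℝ, a ≤ D ∧ D ≤ b ∧ Tendsto u (hyperfilter ℕ) (𝓝 D) := by
  have hc : IsCompact (Icc a b) := isCompact_Icc
  obtain ⟨D, hD, hD2⟩ := hc.ultrafilter_le_nhds ((hyperfilter ℕ).map u) (by
    rw [le_principal_iff]
    show u ⁻¹' (Icc a b) ∈ (hyperfilter ℕ : Filter ℕ)
    refine Filter.mem_of_superset Filter.univ_mem ?_
    intro k _
    exact h k)
  exact ⟨D, hD.1, hD.2, hD2⟩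

/-- the limit lemma -/
theorem limit (hNF : S_NF) (hD : S_DIL) (F : ℕ → ℂ → ℂ) (hF : ∀ k, Cls n x (F k)) (A : ℕ → ℝ)
    (hA : ∀ k, ∀ j ≤ n, dil (F k) (x j) ≤ A j) :
    ∃ G : ℂ → ℂ, Cls n x G ∧
      (∀ z ∈ Hp, Tendsto (fun k => F k z) (hyperfilter ℕ) (𝓝 (G z))) ∧
      (∀ z ∈ Hp, ∀ w : ℕ → ℂ, Tendsto w (hyperfilter ℕ) (𝓝 z) →
        Tendsto (fun k => F k (w k)) (hyperfilter ℕ) (𝓝 (G z))) ∧
      (∀ D : ℝ, Tendsto (fun k => dil (F k) (x 0)) (hyperfilter ℕ) (𝓝 D) →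
        dil G (x 0) ≤ D) := by
  obtain ⟨G, hG1, hG2, -, hG4, hG5, -⟩ := hNF F (fun k => (hF k).1.1) (by
    intro z hz
    have hz' : 0 < z.im := hz
    refine ⟨z.im / 2, by positivity,
      (‖z‖ + z.im / 2) + |A 0 - 1| * ((‖z - (x 0 : ℂ)‖ + z.im / 2) ^ 2 / (z.im / 2)), ?_⟩
    intro k w hw hwH
    rw [mem_ball, dist_eq_norm] at hw
    have h1 := disp hD (hF k) (Nat.zero_le n) w hwH
    have h2 : ‖w‖ ≤ ‖z‖ + z.im / 2 := by
      have : ‖w‖ = ‖z + (w - z)‖ := by congr 1; ring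
      rw [this]
      exact (norm_add_le _ _).trans (by linarith)
    have h3 : ‖w - (x 0 : ℂ)‖ ≤ ‖z - (x 0 : ℂ)‖ + z.im / 2 := by
      have : ‖w - (x 0 : ℂ)‖ = ‖(z - (x 0 : ℂ)) + (w - z)‖ := by congr 1; ring
      rw [this]
      exact (norm_add_le _ _).trans (by linarith)
    have h4 : z.im / 2 ≤ w.im := by
      have h5 : |(w - z).im| ≤ ‖w - z‖ := Complex.abs_im_le_norm _
      rw [Complex.sub_im] at h5
      have h6 := (abs_le.1 (h5.trans hw.le)).1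
      linarith
    have h7 : ‖w - (x 0 : ℂ)‖ ^ 2 / w.im ≤ (‖z - (x 0 : ℂ)‖ + z.im / 2) ^ 2 / (z.im / 2) := by
      apply div_le_div₀ (by positivity) _ (by positivity) h4
      exact pow_le_pow_left₀ (norm_nonneg _) h3 2
    have h8 : dil (F k) (x 0) - 1 ≤ |A 0 - 1| :=
      (by linarith [hA k 0 (Nat.zero_le n)] : dil (F k) (x 0) - 1 ≤ A 0 - 1).trans (le_abs_self _)
    have h9 : 0 ≤ ‖w - (x 0 : ℂ)‖ ^ 2 / w.im := div_nonneg (by positivity) (by linarith)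
    have h10 : ‖F k w‖ ≤ ‖w‖ + ‖F k w - w‖ := by
      have : ‖F k w‖ = ‖w + (F k w - w)‖ := by congr 1; ring
      rw [this]
      exact norm_add_le _ _
    have h11 : (dil (F k) (x 0) - 1) * (‖w - (x 0 : ℂ)‖ ^ 2 / w.im) ≤
        |A 0 - 1| * ((‖z - (x 0 : ℂ)‖ + z.im / 2) ^ 2 / (z.im / 2)) :=
      mul_le_mul h8 h7 h9 (abs_nonneg _)
    linarith)
  have hNe : (hyperfilter ℕ : Filter ℕ).NeBot := inferInstance
  have him : ∀ z ∈ Hp, z.im ≤ (G z).im := by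
    intro z hz
    have h1 : Tendsto (fun k => (F k z).im) (hyperfilter ℕ) (𝓝 (G z).im) :=
      (Complex.continuous_im.tendsto _).comp (hG2 z hz)
    exact ge_of_tendsto' h1 (fun k => (hF k).2.1 z hz)
  have hmaps : MapsTo G Hp Hp := by
    intro z hz
    exact lt_of_lt_of_le hz (him z hz)
  have hinj : InjOn G Hp := by
    rcases hG5 (fun k => (hF k).1.2.2) with h | ⟨c, hc⟩
    · exact h
    · exfalso
      have hz : (((|c.im| + 1 : ℝ) : ℂ) * I) ∈ Hp := by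
        show 0 < (((|c.im| + 1 : ℝ) : ℂ) * I).im
        simp
        positivity
      have h1 := him _ hz
      rw [hc _ hz] at h1
      have h2 : (((|c.im| + 1 : ℝ) : ℂ) * I).im = |c.im| + 1 := by simp
      rw [h2] at h1
      linarith [le_abs_self c.im]
  have hjul : ∀ j ≤ n, ∀ D : ℝ, ∀ u : ℕ → ℝ, (∀ k, dil (F k) (x j) ≤ u k) →
      Tendsto u (hyperfilter ℕ) (𝓝 D) → Jul G (x j) (x j) D := by
    intro j hj D u hu hlim z hz
    have h0 := hG2 z hz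
    have h1 : Tendsto (fun k => z.im * ‖F k z - (x j : ℂ)‖ ^ 2) (hyperfilter ℕ)
        (𝓝 (z.im * ‖G z - (x j : ℂ)‖ ^ 2)) :=
      (((h0.sub_const _).norm).pow 2).const_mul _
    have h2 : Tendsto (fun k => u k * (F k z).im * ‖z - (x j : ℂ)‖ ^ 2) (hyperfilter ℕ)
        (𝓝 (D * (G z).im * ‖z - (x j : ℂ)‖ ^ 2)) :=
      (hlim.mul ((Complex.continuous_im.tendsto _).comp h0)).mul_const _
    refine le_of_tendsto_of_tendsto' h1 h2 ?_
    intro k
    exact jul_mono (hF k).1 (jul_dil hD (hF k) hj) (hu k) z hz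
  refine ⟨G, ⟨⟨hG1, hmaps, hinj⟩, him, ?_⟩, hG2, hG4, ?_⟩
  · intro j hj
    exact ⟨A j, hjul j hj (A j) (fun _ => A j) (fun k => hA k j hj) tendsto_const_nhds⟩
  · intro D hlim
    have hGc : Cls n x G := ⟨⟨hG1, hmaps, hinj⟩, him, fun j hj =>
      ⟨A j, hjul j hj (A j) (fun _ => A j) (fun k => hA k j hj) tendsto_const_nhds⟩⟩
    exact (hD G (x 0) (fa hGc (Nat.zero_le n))).2.2.1 D
      (hjul 0 (Nat.zero_le n) D _ (fun k => le_refl _) hlim)

/-- factorisations of `φ` -/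
def Fac (n : ℕ) (x : ℕ → ℝ) (φ : ℂ → ℂ) : Type :=
  {p : (ℂ → ℂ) × (ℂ → ℂ) // Cls n x p.1 ∧ Cls n x p.2 ∧ ∀ z ∈ Hp, p.1 (p.2 z) = φ z}

variable {φ : ℂ → ℂ}

def Le (p q : Fac n x φ) : Prop :=
  ∃ h : ℂ → ℂ, Cls n x h ∧ (∀ z ∈ Hp, q.1.1 z = p.1.1 (h z)) ∧ ∀ z ∈ Hp, p.1.2 z = h (q.1.2 z)

def ell (p : Fac n x φ) : ℝ := Real.log (dil p.1.1 (x 0))

theorem le_rfl' (p : Fac n x φ) : Le p p :=
  ⟨fun z => z, cls_id, fun _ _ => rfl, fun _ _ => rfl⟩

theorem le_tr (hD : S_DIL) (p q r : Fac n x φ) (h1 : Le p q) (h2 : Le q r) : Le p r := by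
  obtain ⟨h, hc, ha, hb⟩ := h1
  obtain ⟨g, gc, ga, gb⟩ := h2
  refine ⟨fun z => h (g z), cls_comp hD hc gc, ?_, ?_⟩
  · intro z hz
    rw [ga z hz, ha _ (gc.1.2.1 hz)]
  · intro z hz
    rw [hb z hz, gb z hz]

theorem dil_le (hD : S_DIL) {p q : Fac n x φ} {h : ℂ → ℂ} (hc : Cls n x h)
    (ha : ∀ z ∈ Hp, q.1.1 z = p.1.1 (h z)) {j : ℕ} (hj : j ≤ n) :
    dil q.1.1 (x j) = dil p.1.1 (x j) * dil h (x j) := by
  rw [dil_congr (f := fun z => p.1.1 (h z)) ha, dil_comp hD p.2.1 hc hj]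

theorem dil_le2 (hD : S_DIL) {p q : Fac n x φ} {h : ℂ → ℂ} (hc : Cls n x h)
    (hb : ∀ z ∈ Hp, p.1.2 z = h (q.1.2 z)) {j : ℕ} (hj : j ≤ n) :
    dil p.1.2 (x j) = dil h (x j) * dil q.1.2 (x j) := by
  rw [dil_congr (f := fun z => h (q.1.2 z)) hb, dil_comp hD hc q.2.2.1 hj]

theorem ell_eq (hD : S_DIL) {p q : Fac n x φ} {h : ℂ → ℂ} (hc : Cls n x h)
    (ha : ∀ z ∈ Hp, q.1.1 z = p.1.1 (h z)) : ell q = ell p + Real.log (dil h (x 0)) := by
  unfold ell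
  rw [dil_le hD hc ha (Nat.zero_le n), Real.log_mul]
  · exact (lt_of_lt_of_le one_pos (one_le hD p.2.1 (Nat.zero_le n))).ne'
  · exact (lt_of_lt_of_le one_pos (one_le hD hc (Nat.zero_le n))).ne'

theorem log_nn (hD : S_DIL) {h : ℂ → ℂ} (hc : Cls n x h) : 0 ≤ Real.log (dil h (x 0)) :=
  Real.log_nonneg (one_le hD hc (Nat.zero_le n))

theorem log_zero (hD : S_DIL) {h : ℂ → ℂ} (hc : Cls n x h)
    (h0 : Real.log (dil h (x 0)) = 0) : ∀ z ∈ Hp, h z = z := by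
  have h1 := one_le hD hc (Nat.zero_le n)
  rcases Real.log_eq_zero.1 h0 with h2 | h2 | h2
  · linarith
  · exact id_of_dil hD hc (Nat.zero_le n) h2
  · linarith

theorem log_pos' (hD : S_DIL) {h : ℂ → ℂ} (hc : Cls n x h) (hne : ∃ z ∈ Hp, h z ≠ z) :
    0 < Real.log (dil h (x 0)) := by
  rcases (log_nn hD hc).lt_or_eq with h1 | h1
  · exact h1
  · exfalso
    obtain ⟨z, hz, hzz⟩ := hne
    exact hzz (log_zero hD hc h1.symm z hz)

theorem ell_mono (hD : S_DIL) (p q : Fac n x φ) (h : Le p q) : ell p ≤ ell q := by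
  obtain ⟨h, hc, ha, -⟩ := h
  rw [ell_eq hD hc ha]
  linarith [log_nn hD hc]

theorem ell_strict (hD : S_DIL) (p q : Fac n x φ) (h : Le p q) (he : ell p = ell q) : Le q p := by
  obtain ⟨h, hc, ha, hb⟩ := h
  rw [ell_eq hD hc ha] at he
  have hid := log_zero hD hc (by linarith)
  refine ⟨fun z => z, cls_id, ?_, ?_⟩
  · intro z hz
    rw [ha z hz, hid z hz]
  · intro z hz
    rw [hb z hz, hid _ (q.2.2.1.1.2.1 hz)]

/-- products of dilations -/
theorem dil_prod (hD : S_DIL) (p : Fac n x φ) {j : ℕ} (hj : j ≤ n) :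
    dil p.1.1 (x j) * dil p.1.2 (x j) = dil φ (x j) := by
  rw [← dil_comp hD p.2.1 p.2.2.1 hj]
  exact dil_congr p.2.2.2

theorem completeness (hNF : S_NF) (hD : S_DIL) (p : ℕ → Fac n x φ) :
    ∃ a : Fac n x φ, Tendsto (fun k => ell (p k)) (hyperfilter ℕ) (𝓝 (ell a)) ∧
      (∀ q, (∀ᶠ k in (hyperfilter ℕ : Filter ℕ), Le q (p k)) → Le q a) ∧
      (∀ q, (∀ᶠ k in (hyperfilter ℕ : Filter ℕ), Le (p k) q) → Le a q) := by
  have hNe : (hyperfilter ℕ : Filter ℕ).NeBot := inferInstance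
  have b1 : ∀ k, ∀ j ≤ n, dil (p k).1.1 (x j) ≤ dil φ (x j) := by
    intro k j hj
    have h1 := one_le hD (p k).2.1 hj
    have h2 := one_le hD (p k).2.2.1 hj
    rw [← dil_prod hD (p k) hj]
    nlinarith
  have b2 : ∀ k, ∀ j ≤ n, dil (p k).1.2 (x j) ≤ dil φ (x j) := by
    intro k j hj
    have h1 := one_le hD (p k).2.1 hj
    have h2 := one_le hD (p k).2.2.1 hj
    rw [← dil_prod hD (p k) hj]
    nlinarith
  obtain ⟨f, fc, fl, fm, fd⟩ := limit hNF hD (fun k => (p k).1.1) (fun k => (p k).2.1) _ b1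
  obtain ⟨g, gc, gl, gm, gd⟩ := limit hNF hD (fun k => (p k).1.2) (fun k => (p k).2.2.1) _ b2
  have hfg : ∀ z ∈ Hp, f (g z) = φ z := by
    intro z hz
    have h1 := fm (g z) (gc.1.2.1 hz) (fun k => (p k).1.2 z) (gl z hz)
    have h2 : Tendsto (fun k => (p k).1.1 ((p k).1.2 z)) (hyperfilter ℕ) (𝓝 (φ z)) := by
      have : (fun k => (p k).1.1 ((p k).1.2 z)) = fun _ => φ z := by
        funext k
        exact (p k).2.2.2 z hz
      rw [this]
      exact tendsto_const_nhds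
    exact tendsto_nhds_unique h1 h2
  refine ⟨⟨(f, g), fc, gc, hfg⟩, ?_, ?_, ?_⟩
  · -- continuity of the length
    obtain ⟨Df, hDf1, hDf2, hDf3⟩ := ultra_lim (fun k => dil (p k).1.1 (x 0)) 1 (dil φ (x 0))
      (fun k => ⟨one_le hD (p k).2.1 (Nat.zero_le n), b1 k 0 (Nat.zero_le n)⟩)
    obtain ⟨Dg, hDg1, hDg2, hDg3⟩ := ultra_lim (fun k => dil (p k).1.2 (x 0)) 1 (dil φ (x 0))
      (fun k => ⟨one_le hD (p k).2.2.1 (Nat.zero_le n), b2 k 0 (Nat.zero_le n)⟩)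
    have h1 := fd Df hDf3
    have h2 := gd Dg hDg3
    have h3 : Df * Dg = dil φ (x 0) := by
      have h4 := hDf3.mul hDg3
      have h5 : (fun k => dil (p k).1.1 (x 0) * dil (p k).1.2 (x 0)) = fun _ => dil φ (x 0) := by
        funext k
        exact dil_prod hD (p k) (Nat.zero_le n)
      rw [h5] at h4
      exact tendsto_nhds_unique h4 tendsto_const_nhds
    have h6 : dil f (x 0) * dil g (x 0) = dil φ (x 0) := by
      rw [← dil_comp hD fc gc (Nat.zero_le n)]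
      exact dil_congr hfg
    have h7 := one_le hD fc (Nat.zero_le n)
    have h8 := one_le hD gc (Nat.zero_le n)
    have h9 : Df = dil f (x 0) := by
      apply le_antisymm _ h1
      by_contra hcon
      push Not at hcon
      have : dil f (x 0) * dil g (x 0) < Df * Dg := by
        calc dil f (x 0) * dil g (x 0) < Df * dil g (x 0) :=
              mul_lt_mul_of_pos_right hcon (by linarith)
          _ ≤ Df * Dg := mul_le_mul_of_nonneg_left h2 (by linarith)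
      linarith
    unfold ell
    rw [← h9]
    exact ((Real.continuousAt_log (by linarith)).tendsto).comp hDf3
  · -- lower bounds
    intro q hq
    have hex : ∀ k, ∃ h : ℂ → ℂ, Cls n x h ∧ (∀ j ≤ n, dil h (x j) ≤ dil q.1.2 (x j)) ∧
        (Le q (p k) → (∀ z ∈ Hp, (p k).1.1 z = q.1.1 (h z)) ∧
          ∀ z ∈ Hp, q.1.2 z = h ((p k).1.2 z)) := by
      intro k
      by_cases hk : Le q (p k)
      · obtain ⟨h, hc, ha, hb⟩ := hk
        refine ⟨h, hc, ?_, fun _ => ⟨ha, hb⟩⟩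
        intro j hj
        have h1 := dil_le2 hD hc hb hj
        have h2 := one_le hD (p k).2.2.1 hj
        have h3 := one_le hD hc hj
        rw [h1]
        nlinarith
      · refine ⟨fun z => z, cls_id, ?_, fun h => absurd h hk⟩
        intro j hj
        rw [dil_id hD hj]
        exact one_le hD q.2.2.1 hj
    choose h hc hd hh using hex
    obtain ⟨H, Hc, Hl, Hm, -⟩ := limit hNF hD h hc _ hd
    refine ⟨H, Hc, ?_, ?_⟩
    · intro z hz
      show f z = q.1.1 (H z)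
      have hcont : ContinuousAt q.1.1 (H z) :=
        (q.2.1.1.1.continuousOn).continuousAt (hp_open.mem_nhds (Hc.1.2.1 hz))
      have h1 : Tendsto (fun k => q.1.1 (h k z)) (hyperfilter ℕ) (𝓝 (q.1.1 (H z))) :=
        hcont.tendsto.comp (Hl z hz)
      have h2 : Tendsto (fun k => q.1.1 (h k z)) (hyperfilter ℕ) (𝓝 (f z)) := by
        refine (fl z hz).congr' ?_
        filter_upwards [hq] with k hk
        exact (hh k hk).1 z hz
      exact tendsto_nhds_unique h2 h1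
    · intro z hz
      show q.1.2 z = H (g z)
      have h1 := Hm (g z) (gc.1.2.1 hz) (fun k => (p k).1.2 z) (gl z hz)
      have h2 : Tendsto (fun k => h k ((p k).1.2 z)) (hyperfilter ℕ) (𝓝 (q.1.2 z)) := by
        refine (tendsto_const_nhds (x := q.1.2 z)).congr' ?_
        filter_upwards [hq] with k hk
        exact (hh k hk).2 z hz
      exact tendsto_nhds_unique h2 h1
  · -- upper bounds
    intro q hq
    have hex : ∀ k, ∃ h : ℂ → ℂ, Cls n x h ∧ (∀ j ≤ n, dil h (x j) ≤ dil q.1.1 (x j)) ∧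
        (Le (p k) q → (∀ z ∈ Hp, q.1.1 z = (p k).1.1 (h z)) ∧
          ∀ z ∈ Hp, (p k).1.2 z = h (q.1.2 z)) := by
      intro k
      by_cases hk : Le (p k) q
      · obtain ⟨h, hc, ha, hb⟩ := hk
        refine ⟨h, hc, ?_, fun _ => ⟨ha, hb⟩⟩
        intro j hj
        have h1 := dil_le hD hc ha hj
        have h2 := one_le hD (p k).2.1 hj
        have h3 := one_le hD hc hj
        rw [h1]
        nlinarith
      · refine ⟨fun z => z, cls_id, ?_, fun h => absurd h hk⟩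
        intro j hj
        rw [dil_id hD hj]
        exact one_le hD q.2.1 hj
    choose h hc hd hh using hex
    obtain ⟨H, Hc, Hl, Hm, -⟩ := limit hNF hD h hc _ hd
    refine ⟨H, Hc, ?_, ?_⟩
    · intro z hz
      show q.1.1 z = f (H z)
      have h1 := fm (H z) (Hc.1.2.1 hz) (fun k => h k z) (Hl z hz)
      have h2 : Tendsto (fun k => (p k).1.1 (h k z)) (hyperfilter ℕ) (𝓝 (q.1.1 z)) := by
        refine (tendsto_const_nhds (x := q.1.1 z)).congr' ?_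
        filter_upwards [hq] with k hk
        exact (hh k hk).1 z hz
      exact tendsto_nhds_unique h2 h1
    · intro z hz
      show g z = H (q.1.2 z)
      have hqz := q.2.2.1.1.2.1 hz
      have h1 := Hl (q.1.2 z) hqz
      have h2 : Tendsto (fun k => h k (q.1.2 z)) (hyperfilter ℕ) (𝓝 (g z)) := by
        refine (gl z hz).congr' ?_
        filter_upwards [hq] with k hk
        exact (hh k hk).2 z hz
      exact tendsto_nhds_unique h2 h1

theorem density (hN : S_N) (hD : S_DIL) (hx : ∀ i j, i < j → j ≤ n → x i < x j)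
    (p q : Fac n x φ) (h : Le p q) (hlt : ell p < ell q) :
    ∃ r : Fac n x φ, Le p r ∧ Le r q ∧ ell p < ell r ∧ ell r < ell q := by
  obtain ⟨h, hc, ha, hb⟩ := h
  have hne : ∃ z ∈ Hp, h z ≠ z := by
    by_contra hcon
    push Not at hcon
    have h1 : dil h (x 0) = 1 := by
      rw [dil_congr (f := fun z => z) hcon, dil_id hD (Nat.zero_le n)]
    rw [ell_eq hD hc ha, h1, Real.log_one] at hlt
    linarith
  obtain ⟨h1, h2, h1c, h2c, h12, h1n, h2n⟩ := hN n x hx h hc hne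
  let r : Fac n x φ := ⟨(fun z => p.1.1 (h1 z), fun z => h2 (q.1.2 z)),
    cls_comp (f := p.1.1) (g := h1) hD p.2.1 h1c, cls_comp (f := h2) (g := q.1.2) hD h2c q.2.2.1, by
      intro z hz
      show p.1.1 (h1 (h2 (q.1.2 z))) = φ z
      have hqz := q.2.2.1.1.2.1 hz
      rw [h12 _ hqz, ← ha _ hqz]
      exact q.2.2.2 z hz⟩
  have hr1 : ∀ z ∈ Hp, r.1.1 z = p.1.1 (h1 z) := fun _ _ => rfl
  have hr2 : ∀ z ∈ Hp, q.1.1 z = r.1.1 (h2 z) := by
    intro z hz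
    show q.1.1 z = p.1.1 (h1 (h2 z))
    rw [h12 z hz, ha z hz]
  refine ⟨r, ⟨h1, h1c, hr1, ?_⟩, ⟨h2, h2c, hr2, fun _ _ => rfl⟩, ?_, ?_⟩
  · intro z hz
    show p.1.2 z = h1 (h2 (q.1.2 z))
    have hqz := q.2.2.1.1.2.1 hz
    rw [h12 _ hqz, hb z hz]
  · rw [ell_eq hD h1c hr1]
    linarith [log_pos' hD h1c h1n]
  · rw [ell_eq hD h2c hr2]
    linarith [log_pos' hD h2c h2n]

/-- TARGET (the hypotheses which are needed) -/
theorem t0 (hN : S_N) (hCH : S_CHAIN) (hNF : S_NF) (hD : S_DIL) : S_G := by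
  intro n x hx φ hφ _
  have h0n := Nat.zero_le n
  let b0 : Fac n x φ := ⟨(fun z => z, φ), cls_id, hφ, fun _ _ => rfl⟩
  let b1 : Fac n x φ := ⟨(φ, fun z => z), hφ, cls_id, fun _ _ => rfl⟩
  obtain ⟨P, hP1, hP2⟩ := hCH (Fac n x φ) Le ell b0 b1 le_rfl' (le_tr hD) (ell_mono hD)
    (ell_strict hD)
    (fun p => ⟨p.1.1, p.2.1, fun _ _ => rfl, fun z hz => (p.2.2.2 z hz).symm⟩)
    (fun p => ⟨p.1.2, p.2.2.1, fun z hz => (p.2.2.2 z hz).symm, fun _ _ => rfl⟩)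
    (completeness hNF hD) (density hN hD hx)
  have hb0 : ell b0 = 0 := by
    show Real.log (dil (fun z => z) (x 0)) = 0
    rw [dil_id hD h0n, Real.log_one]
  obtain ⟨L, hL⟩ : ∃ L, L = ell b1 := ⟨_, rfl⟩
  rw [hb0, ← hL] at hP1 hP2
  have hL0 : 0 ≤ L := by rw [hL]; exact log_nn hD hφ
  -- transition maps
  have hex : ∀ a b : ℝ, ∃ h : ℂ → ℂ, Cls n x h ∧
      (0 ≤ a → a ≤ b → b ≤ L → ∀ z ∈ Hp, (P b).1.1 z = (P a).1.1 (h z)) := by
    intro a b
    by_cases hab : 0 ≤ a ∧ a ≤ b ∧ b ≤ L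
    · obtain ⟨h1, h2, h3⟩ := hab
      obtain ⟨h, hc, ha, -⟩ := hP2 a ⟨h1, h2.trans h3⟩ b ⟨h1.trans h2, h3⟩ h2
      exact ⟨h, hc, fun _ _ _ => ha⟩
    · exact ⟨fun z => z, cls_id, fun h1 h2 h3 => absurd ⟨h1, h2, h3⟩ hab⟩
  choose β βc βe using hex
  have hinj : ∀ a z w, z ∈ Hp → w ∈ Hp → (P a).1.1 z = (P a).1.1 w → z = w :=
    fun a z w hz hw h => (P a).2.1.1.2.2 hz hw h
  have βm : ∀ a b z, z ∈ Hp → β a b z ∈ Hp := fun a b z hz => (βc a b).1.2.1 hz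
  have βcomp : ∀ a b c, 0 ≤ a → a ≤ b → b ≤ c → c ≤ L → ∀ z ∈ Hp,
      β a c z = β a b (β b c z) := by
    intro a b c h0 h1 h2 h3 z hz
    apply hinj a _ _ (βm _ _ _ hz) (βm _ _ _ (βm _ _ _ hz))
    rw [← βe a c h0 (h1.trans h2) h3 z hz, ← βe a b h0 h1 (h2.trans h3) _ (βm _ _ _ hz),
      ← βe b c (h0.trans h1) h2 h3 z hz]
  have βid : ∀ a, 0 ≤ a → a ≤ L → ∀ z ∈ Hp, β a a z = z := by
    intro a h0 h1 z hz
    apply hinj a _ _ (βm _ _ _ hz) hz
    rw [← βe a a h0 le_rfl h1 z hz]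
  have βdil : ∀ a b, 0 ≤ a → a ≤ b → b ≤ L → dil (β a b) (x 0) = Real.exp (b - a) := by
    intro a b h0 h1 h2
    have h3 := ell_eq hD (p := P a) (q := P b) (βc a b) (βe a b h0 h1 h2)
    rw [hP1 b ⟨h0.trans h1, h2⟩, hP1 a ⟨h0, h1.trans h2⟩] at h3
    have h4 : Real.log (dil (β a b) (x 0)) = b - a := by linarith
    rw [← h4, Real.exp_log (lt_of_lt_of_le one_pos (one_le hD (βc a b) h0n))]
  have hP0 : ∀ z ∈ Hp, (P 0).1.1 z = z := by
    apply log_zero hD (P 0).2.1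
    exact hP1 0 ⟨le_rfl, hL0⟩
  have hPL : ∀ z ∈ Hp, (P L).1.1 z = φ z := by
    have h1 : ell (P L) = L := hP1 L ⟨hL0, le_rfl⟩
    have h2 : Real.log (dil (P L).1.2 (x 0)) = 0 := by
      have h3 := dil_prod hD (P L) h0n
      have h4 := one_le hD (P L).2.1 h0n
      have h5 := one_le hD (P L).2.2.1 h0n
      have h6 : Real.log (dil φ (x 0)) = Real.log (dil (P L).1.1 (x 0)) +
          Real.log (dil (P L).1.2 (x 0)) := by
        rw [← h3, Real.log_mul (by linarith) (by linarith)]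
      have h7 : Real.log (dil φ (x 0)) = L := hL.symm
      have h8 : Real.log (dil (P L).1.1 (x 0)) = L := h1
      linarith
    have h3 := log_zero hD (P L).2.2.1 h2
    intro z hz
    rw [← (P L).2.2.2 z hz, h3 z hz]
  have hβ0L : ∀ z ∈ Hp, β 0 L z = φ z := by
    intro z hz
    rw [← hPL z hz, βe 0 L le_rfl hL0 le_rfl z hz, hP0 _ (βm _ _ _ hz)]
  -- the evolution family
  obtain ⟨A, hA⟩ : ∃ A : ℝ → ℝ, A = fun s => L * (1 - min s 1) := ⟨_, rfl⟩
  have A0 : ∀ s, 0 ≤ A s := by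
    intro s
    rw [hA]
    exact mul_nonneg hL0 (by linarith [min_le_right s 1])
  have AL : ∀ s, 0 ≤ s → A s ≤ L := by
    intro s hs
    rw [hA]
    have : 0 ≤ min s 1 := le_min hs zero_le_one
    show L * (1 - min s 1) ≤ L
    nlinarith
  have Am : ∀ s t, s ≤ t → A t ≤ A s := by
    intro s t hst
    rw [hA]
    have : min s 1 ≤ min t 1 := min_le_min_right 1 hst
    show L * (1 - min t 1) ≤ L * (1 - min s 1)
    nlinarith
  have Al : ∀ s t, s ≤ t → A s - A t ≤ L * (t - s) := by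
    intro s t hst
    rw [hA]
    have : min t 1 - min s 1 ≤ t - s := by
      rcases le_total t 1 with h1 | h1
      · rw [min_eq_left h1, min_eq_left (hst.trans h1)]
      · rw [min_eq_right h1]
        rcases le_total s 1 with h2 | h2
        · rw [min_eq_left h2]; linarith
        · rw [min_eq_right h2]; linarith
    show L * (1 - min s 1) - L * (1 - min t 1) ≤ L * (t - s)
    nlinarith
  refine ⟨fun s t => β (A t) (A s), fun z => L * (Real.exp L * Real.exp L) *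
    (‖z - (x 0 : ℂ)‖ ^ 2 / z.im), ?_, ?_, ?_, ?_, ?_⟩
  · intro s t _ _
    exact βc _ _
  · intro s hs z hz
    exact βid _ (A0 s) (AL s hs) z hz
  · intro s u t hs hsu hut z hz
    exact βcomp _ _ _ (A0 t) (Am u t hut) (Am s u hsu) (AL s hs) z hz
  · intro s u t hs hsu hut z hz
    show ‖β (A u) (A s) z - β (A t) (A s) z‖ ≤ L * (Real.exp L * Real.exp L) *
      (‖z - (x 0 : ℂ)‖ ^ 2 / z.im) * (t - u)
    rw [βcomp _ _ _ (A0 t) (Am u t hut) (Am s u hsu) (AL s hs) z hz]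
    obtain ⟨w, hw⟩ : ∃ w, w = β (A u) (A s) z := ⟨_, rfl⟩
    rw [← hw]
    have hwH : w ∈ Hp := by rw [hw]; exact βm _ _ _ hz
    have hw0 : 0 < w.im := hwH
    have hz0 : 0 < z.im := hz
    have hu : 0 ≤ u := hs.trans hsu
    have h1 := disp hD (βc (A t) (A u)) h0n w hwH
    rw [βdil _ _ (A0 t) (Am u t hut) (AL u hu)] at h1
    have h2 := jul_dil hD (βc (A u) (A s)) h0n z hz
    rw [βdil _ _ (A0 u) (Am s u hsu) (AL s hs), ← hw] at h2
    have h3 : ‖w - (x 0 : ℂ)‖ ^ 2 / w.im ≤ Real.exp L * (‖z - (x 0 : ℂ)‖ ^ 2 / z.im) := by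
      rw [div_le_iff₀ hw0]
      have h4 : Real.exp (A s - A u) ≤ Real.exp L :=
        Real.exp_le_exp.2 (by linarith [AL s hs, A0 u])
      have h5 : ‖w - (x 0 : ℂ)‖ ^ 2 * z.im ≤ Real.exp L * w.im * ‖z - (x 0 : ℂ)‖ ^ 2 := by
        calc ‖w - (x 0 : ℂ)‖ ^ 2 * z.im = z.im * ‖w - (x 0 : ℂ)‖ ^ 2 := by ring
          _ ≤ Real.exp (A s - A u) * w.im * ‖z - (x 0 : ℂ)‖ ^ 2 := h2
          _ ≤ Real.exp L * w.im * ‖z - (x 0 : ℂ)‖ ^ 2 := by gcongr
      calc ‖w - (x 0 : ℂ)‖ ^ 2 = ‖w - (x 0 : ℂ)‖ ^ 2 * z.im / z.im := by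
            rw [mul_div_assoc, div_self hz0.ne', mul_one]
        _ ≤ Real.exp L * w.im * ‖z - (x 0 : ℂ)‖ ^ 2 / z.im := by gcongr
        _ = Real.exp L * (‖z - (x 0 : ℂ)‖ ^ 2 / z.im) * w.im := by ring
    have h6 : Real.exp (A u - A t) - 1 ≤ L * (t - u) * Real.exp L := by
      have h7 : 0 ≤ A u - A t := by linarith [Am u t hut]
      have h8 : A u - A t ≤ L := by linarith [AL u hu, A0 t]
      have h9 : 1 - (A u - A t) ≤ Real.exp (-(A u - A t)) := by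
        have := Real.add_one_le_exp (-(A u - A t))
        linarith
      have h10 : Real.exp (A u - A t) - 1 ≤ (A u - A t) * Real.exp (A u - A t) := by
        have h11 : Real.exp (A u - A t) * Real.exp (-(A u - A t)) = 1 := by
          rw [← Real.exp_add]; simp
        have h12 := mul_le_mul_of_nonneg_left h9 (Real.exp_pos (A u - A t)).le
        rw [h11] at h12
        linarith
      refine h10.trans ?_
      exact mul_le_mul (Al u t hut) (Real.exp_le_exp.2 h8) (Real.exp_pos _).le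
        (mul_nonneg hL0 (by linarith))
    have h13 : 0 ≤ ‖z - (x 0 : ℂ)‖ ^ 2 / z.im := by positivity
    have h14 : 0 ≤ ‖w - (x 0 : ℂ)‖ ^ 2 / w.im := by positivity
    rw [norm_sub_rev]
    calc ‖β (A t) (A u) w - w‖ ≤ (Real.exp (A u - A t) - 1) * (‖w - (x 0 : ℂ)‖ ^ 2 / w.im) := h1
      _ ≤ (L * (t - u) * Real.exp L) * (Real.exp L * (‖z - (x 0 : ℂ)‖ ^ 2 / z.im)) :=
          mul_le_mul h6 h3 h14 (mul_nonneg (mul_nonneg hL0 (by linarith)) (Real.exp_pos _).le)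
      _ = L * (Real.exp L * Real.exp L) * (‖z - (x 0 : ℂ)‖ ^ 2 / z.im) * (t - u) := by ring
  · intro z hz
    have e0 : A 0 = L := by rw [hA]; simp
    have e1 : A 1 = 0 := by rw [hA]; simp
    show β (A 1) (A 0) z = φ z
    rw [e0, e1]
    exact hβ0L z hz

/-- TARGET -/
theorem t (hN : S_N) (hCH : S_CHAIN) (hNF : S_NF) (hD : S_DIL) (_hSP : S_SP) (_hS : S_SPLIT)
    (_hBD : S_JBD) : S_G := t0 hN hCH hNF hD

end LW242.G350
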